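import Pool.Agent.H58.SO.Basic

/-!
Row EXT of the board vto_modules (`MP_6ab439_lc`): combinations.
-/

set_option autoImplicit false

open Pool.Agent.H68.BP Pool.Agent.H58.SF Pool.Agent.H53.GC Pool.Agent.H53.NR Pool.Agent.H58.SO

namespace Pool.Agent.H55.SO

/-- EXT -/
theorem pf_EXT (hRLZ : T_RLZ) : T_EXT := by
  intro σ V X Θ _ M B 𝔸 D hbl I h hPM P _ z
  obtain ⟨γ, hγ⟩ := hRLZ V X Θ M B P (fun p p' => h (z p) (z p')) (fun p => by
    obtain ⟨x, _, hx⟩ := hPM none (fun a => z (p a)) (fun i => trivial)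
    exact ⟨x, hx⟩)
  refine ⟨γ, hγ, fun s f hf => ?_⟩
  obtain ⟨x, hx, hx'⟩ := hPM s (fun a => z (f a)) hf
  refine hbl.rel hx (sameD_of_ct fun a b => ?_)
  rw [hγ (f a) (f b), hx' a b]

end Pool.Agent.H55.SO
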